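import Pool.Agent.Y8.ED.ResC

/-!
MP_fd8964_an: blow-up for the Navier-Stokes equations with Dirichlet conditions in an arbitrary
bounded open set of `ℝ³` and an additional dissipation `D ≥ 0`; no solution in the class of the
problem.

For every viscosity `ν > 0`, every bounded open set `Ω` of `ℝ³`, every point `p` of `Ω`, every
functional `Λ` of the fields and every `η > 0` there are a complete orthonormal system `e` of the
space `H` of the problem, which consists of smooth divergence-free fields with compact support in
`Ω`, and a self-adjoint linear operator `D = ∑ lam i ⟨·, e i⟩ e i ≥ 0`, which vanishes on a sequence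
`e (ψ n)` of modes only (their supports shrink to `p`) and is as strong as we like on all the other
modes (`Λ (e i) ≤ lam i`), such that for

  `∂ₜ u + (u · ∇) u + ∇p = ν Δ u - D u`,  `div u = 0`  in `Ω`,  `u = 0` on `∂Ω`

with the datum `u(0) = e (ψ 0)` there is a unique maximal solution; it is smooth in space, satisfies
the energy identity, its velocity blows up in finite time, away from the point `p` it stays bounded
with all its derivatives, and all its energy but the part `η` is kept up to the time `T` of blow-up
and concentrates at the point `p`. It is a Leray-Hopf solution on `[0, T]`, and every Leray-Hopf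
solution `v` with the same datum on an interval `[0, T']`, `T' ≥ T`, is equal to it on `[0, T]` and
is not continuous at `T` with values in `H`; so `∂ₜ v` is not in `L^∞(0, T'; H)`.
-/

set_option autoImplicit false

open Set MeasureTheory Metric

namespace Pool.Agent.Results.MP_fd8964_an.AddedDissipation

open Pool.Agent.Y303.SKR Pool.Agent.Y303.EJR Pool.Agent.Y8.DIR Pool.Agent.Y8.EDR Pool.Agent.Y8.EDN

theorem result (ν : ℝ) (Ω : Set (EuclideanSpace ℝ (Fin 3))) (p : EuclideanSpace ℝ (Fin 3))
    (Λ : (EuclideanSpace ℝ (Fin 3) → EuclideanSpace ℝ (Fin 3)) → ℝ) (η : ℝ) (hν : 0 < ν)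
    (hΩ : IsOpen Ω) (hb : Bornology.IsBounded Ω) (hp : p ∈ Ω) (hη : 0 < η) :
    ∃ (ι : Type) (e : ι → EuclideanSpace ℝ (Fin 3) → EuclideanSpace ℝ (Fin 3)) (lam : ι → ℝ)
      (ψ : ℕ → ι) (T : ℝ) (u : ℝ → EuclideanSpace ℝ (Fin 3) → EuclideanSpace ℝ (Fin 3)),
      -- the dissipation: it vanishes on the modes `e (ψ n)`, which concentrate at `p`, and it is
      -- as strong as we like on all the other modes
      DissD Ω e lam ∧ Damp p Λ e lam ψ ∧
      0 < T ∧ SolL Ω ν e lam T u ∧ u 0 = e (ψ 0) ∧
      -- all derivatives in space are continuous in `ℝ³` and bounded, locally uniformly in time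
      SmD T u ∧
      -- uniqueness, and `T` is the maximal time of existence
      (∀ (T' : ℝ) (v : ℝ → EuclideanSpace ℝ (Fin 3) → EuclideanSpace ℝ (Fin 3)), 0 < T' →
        SolL Ω ν e lam T' v → v 0 = u 0 → T' ≤ T ∧ ∀ t ∈ Ico 0 T', v t = u t) ∧
      -- the energy identity; no singularity at the time `T` away from `p`
      EnL ν e lam T u ∧ AwayL p T u ∧
      -- blow-up of the velocity
      (∀ M : ℝ, ∃ t ∈ Ico 0 T, ∃ x, M < ‖u t x‖) ∧
      -- the energy is kept up to the part `η`, and concentrates at `p`
      ConcL p η T u ∧
      -- a Leray-Hopf solution on `[0, T]`; no continuous continuation of any Leray-Hopf solution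
      LHL Ω ν e lam T u (fun t => gr (u t)) ∧ NoCont Ω ν e lam T u :=
  t_RESN ν Ω p Λ η hν hΩ hb hp hη

end Pool.Agent.Results.MP_fd8964_an.AddedDissipation
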