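import Pool.Agent.Y7.AN.DFin2A
import Pool.Agent.Y7.AN.Rp
import Pool.Agent.Y35.D7.L3
import Pool.Agent.Y537.D7.Ext

/-!
Interior estimates for smooth solutions of the Navier-Stokes equations in an arbitrary open set,
up to a possible blow-up time: on compact subsets the regularity scale (defined with the bounds of
a real analytic function) is integrable to the critical powers, to the power `-4` in space and time, and to the power `-2`, for the vorticity, for
the supremum in time along the paths of the particles. In particular the derivative of order `n + 1`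
of the velocity is locally in the space `L ^ (4 / (n + 2))` (strong type, at the scaling exponent;
for example the second derivatives are in `L ^ (4 / 3)`). No boundary condition is used.

`V = Fin 3 → ℝ` with the maximum norm. See the claim file for the definitions.
-/

open MeasureTheory Set Metric
open scoped ENNReal

namespace Pool.Agent.Results.MP_fd8964_an.InteriorEndpoint

open H459R3.NS W221.NS

/-- The vorticity of `v`, as the antisymmetric matrix `∂ᵢ vⱼ - ∂ⱼ vᵢ`. -/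
noncomputable def vorticity (v : V → V) (x : V) : Fin 3 → Fin 3 → ℝ :=
  fun i j => fderiv ℝ v x (Pi.single i 1) j - fderiv ℝ v x (Pi.single j 1) i

/-- On the ball of radius `r` around `x` the derivative of order `n + j` of the field `w` has
norm at most `C ^ (n + 1) * n! * ν / r ^ (n + 2)`, for every `n ≥ 0`. -/
def RegularBall {F : Type} [NormedAddCommGroup F] [NormedSpace ℝ F] (j : ℕ) (C ν : ℝ)
    (w : V → F) (x : V) (r : ℝ) : Prop :=
  0 < r ∧ ∀ y ∈ ball x r, ∀ n : ℕ,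
    ‖iteratedFDeriv ℝ (n + j) w y‖ ≤ C ^ (n + 1) * n.factorial * ν / r ^ (n + 2)

/-- `1 / r(x) ^ m`, where the regularity scale `r(x)` is the supremum of the radii of the
regular balls around `x`. -/
noncomputable def invScale {F : Type} [NormedAddCommGroup F] [NormedSpace ℝ F] (m j : ℕ)
    (C ν : ℝ) (w : V → F) (x : V) : ℝ≥0∞ :=
  ⨅ r : ℝ, ⨅ _ : RegularBall j C ν w x r, ENNReal.ofReal (1 / r ^ m)

/-- `∫∫ |∇u|²` over `(a, T) × B`. -/
noncomputable def dissipation (a T : ℝ) (u : ℝ → V → V) (B : Set V) : ℝ≥0∞ :=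
  ∫⁻ t in Ioo a T, ∫⁻ x in B, ENNReal.ofReal (‖fderiv ℝ (u t) x‖ ^ 2)

/-- `(1 / ν²) (1 + E / (ν √R)) (∫∫ |∇u|² + E² T / R²)`, the integral being over `(0, T)` and the
ball of radius `R` around `x₀`. -/
noncomputable def bound (ν T E : ℝ) (u : ℝ → V → V) (x₀ : V) (R : ℝ) : ℝ≥0∞ :=
  ENNReal.ofReal (1 / ν ^ 2 * (1 + E / (ν * √R))) *
    (dissipation 0 T u (ball x₀ R) + ENNReal.ofReal (E ^ 2 * T / R ^ 2))

/-- `X t a` is, from the time `t₁` on and as long as it is in `B`, the position at the time `t` of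
the particle which is at `a` at the time `t₁`. -/
def IsLocalFlow (u : ℝ → V → V) (t₁ T : ℝ) (B : Set V) (X : ℝ → V → V) : Prop :=
  ∀ a, X t₁ a = a ∧ ContinuousOn (fun t => X t a) (Ico t₁ T) ∧
    ∀ t ∈ Ioo t₁ T, X t a ∈ B → HasDerivAt (fun s => X s a) (u t (X t a)) t

/-- The times `t` such that the particle `a` has been in `B` since the time `t₁`. -/
def stay (t₁ T : ℝ) (B : Set V) (X : ℝ → V → V) (a : V) : Set ℝ :=
  {t | t ∈ Ioo t₁ T ∧ ∀ τ ∈ Icc t₁ t, X τ a ∈ B}

/-- There is an absolute constant `C` with the following properties. Let `(u, p)` be a smooth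
solution of the Navier-Stokes equations with viscosity `ν` and without force on `(0, T) × Ω`, where
`Ω` is an open set, with `∫ |u|² ≤ E²` over `Ω` at all times. Let `r(t, x)` be the regularity scale
of `u t` at `x` (derivatives of order `n + 1`, `n ≥ 0`) and `s(t, x)` the one of the vorticity
(derivatives of order `n`, `n ≥ 0`), with the analytic constants `C ^ (n + 1) * n!`. Let the closed
ball (a cube) of radius `R` around `x₀` be contained in `Ω`, and let `B` be the ball of radius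
`R / 8` around `x₀`.

Then the integral over `(0, T) × B` of the positive part of
`r(t, x) ^ (-4) - C (1 / R ^ 4 + 1 / (ν t) ^ 2)` is at most `C` times
`(1 / ν²) (1 + E / (ν √R)) (∫∫ |∇u|² + E² T / R²)`, and for every `n ≥ 0` and `t₀ > 0` the integral
over `(t₀, T) × B` of the norm of the derivative of order `n + 1` of `u` to the power `4 / (n + 2)`
is at most `C (n + 1) ^ 4 ν ^ (4 / (n + 2))` times the sum of this quantity and
`T / R + R ^ 3 / (ν² t₀)`.

For every `t₁` in `(0, T)` there is a local flow `X` (in the ball of radius `R / 2`) such that the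
integral over the particles `a` of the supremum, over the times `t` until which the particle has
stayed in `B`, of the positive part of `s(t, X(t, a)) ^ (-2) - C (1 / R ^ 2 + 1 / (ν (t - t₁)))` is
at most `(C / ν) ∫∫ |∇u|²`, and for every `n ≥ 0` and `t₀ > t₁` the integral of the supremum over
these times `t ≥ t₀` of the power `2 / (n + 2)` of the norm of the derivative of order `n` of the
vorticity at `(t, X(t, a))` is at most `C (n + 1) ^ 2 ν ^ (2 / (n + 2))` times
`(1 / ν) ∫∫ |∇u|² + R + R ^ 3 / (ν (t₀ - t₁))`. -/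
theorem result : ∃ C : ℝ, 0 < C ∧
    ∀ (ν T E : ℝ) (Ω : Set V) (u : ℝ → V → V) (p : ℝ → V → ℝ) (x₀ : V) (R : ℝ), 0 < ν → 0 ≤ E →
      OSol ν T E Ω u p → 0 < R → closedBall x₀ R ⊆ Ω →
      ∫⁻ t in Ioo 0 T, ∫⁻ x in ball x₀ (R / 8),
          (invScale 4 1 C ν (u t) x - ENNReal.ofReal (C * (1 / R ^ 4 + 1 / (ν * t) ^ 2)))
        ≤ ENNReal.ofReal C * bound ν T E u x₀ R ∧
      (∀ (n : ℕ) (t₀ : ℝ), 0 < t₀ →
        ∫⁻ t in Ioo t₀ T, ∫⁻ x in ball x₀ (R / 8),
            ENNReal.ofReal (‖iteratedFDeriv ℝ (n + 1) (u t) x‖ ^ (4 / (n + 2) : ℝ))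
          ≤ ENNReal.ofReal (C * (n + 1) ^ 4 * ν ^ (4 / (n + 2) : ℝ)) *
            (bound ν T E u x₀ R + ENNReal.ofReal (T / R + R ^ 3 / (ν ^ 2 * t₀)))) ∧
      ∀ t₁ ∈ Ioo 0 T, ∃ X : ℝ → V → V, IsLocalFlow u t₁ T (ball x₀ (R / 2)) X ∧
        ∫⁻ a, ⨆ t ∈ stay t₁ T (ball x₀ (R / 8)) X a,
            (invScale 2 0 C ν (vorticity (u t)) (X t a)
              - ENNReal.ofReal (C * (1 / R ^ 2 + 1 / (ν * (t - t₁)))))
          ≤ ENNReal.ofReal (C / ν) * dissipation t₁ T u (ball x₀ R) ∧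
        ∀ (n : ℕ) (t₀ : ℝ), t₁ < t₀ →
          ∫⁻ a, ⨆ t ∈ Ici t₀ ∩ stay t₁ T (ball x₀ (R / 8)) X a, ENNReal.ofReal
              (‖iteratedFDeriv ℝ n (vorticity (u t)) (X t a)‖ ^ (2 / (n + 2) : ℝ))
            ≤ ENNReal.ofReal (C * (n + 1) ^ 2 * ν ^ (2 / (n + 2) : ℝ)) *
              (ENNReal.ofReal (1 / ν) * dissipation t₁ T u (ball x₀ R)
                + ENNReal.ofReal (R + R ^ 3 / (ν * (t₀ - t₁)))) := by
  obtain ⟨C₀, hC₀, K, ⟨hK0, c, hc, hKc⟩, H⟩ :=
    Pool.Agent.Y7.D.domGA Pool.Agent.Y7.a_locp Pool.Agent.Y537.D7.dext Pool.Agent.Y35.D7.dl3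
  obtain ⟨C, hC, hC1, hKC, b4, b2⟩ := Pool.Agent.Y7.one_const hC₀ hc hK0 hKc
  have e4 : ∀ (v : V → V) (ν : ℝ) (x : V), invScale 4 1 C ν v x
      = Pool.Agent.Y7.invSc 4 1 (fun n : ℕ => C ^ (n + 1) * (n.factorial : ℝ)) ν v x :=
    fun v ν x => rfl
  have e2 : ∀ (v : V → V) (ν : ℝ) (x : V), invScale 2 0 C ν (vorticity v) x
      = Pool.Agent.Y7.invSc 2 0 (fun n : ℕ => C ^ (n + 1) * (n.factorial : ℝ)) ν
        (Pool.Agent.Y7.vort v) x := fun v ν x => rfl
  refine ⟨C, hC, ?_⟩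
  intro ν T E Ω u p x₀ R hν hE hS hR hΩ
  obtain ⟨h1, h2, h3⟩ := H ν T E Ω u p x₀ R hν hE hS hR hΩ
  have e1 : ENNReal.ofReal (C₀ / ν ^ 2 * (1 + E / (ν * √R))) *
          ((∫⁻ t in Ioo 0 T, ∫⁻ y in ball x₀ R, ENNReal.ofReal (‖fderiv ℝ (u t) y‖ ^ 2))
            + ENNReal.ofReal (E ^ 2 * T / R ^ 2)) = ENNReal.ofReal C₀ * bound ν T E u x₀ R := by
    unfold bound
    rw [← mul_assoc, ← ENNReal.ofReal_mul hC₀.le]
    congr 2
    ring
  refine ⟨?_, ?_, ?_⟩
  · refine le_trans ?_ ((h1.trans (le_of_eq e1)).trans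
      (mul_le_mul_left (ENNReal.ofReal_le_ofReal hC1) _))
    refine lintegral_mono fun t => lintegral_mono fun x => ?_
    rw [e4]
    refine tsub_le_tsub (Pool.Agent.Y7.invSc_mono hKC hν _ _) (ENNReal.ofReal_le_ofReal ?_)
    show C₀ * (1 / R ^ 4 + 1 / (ν * t) ^ 2) ≤ C * (1 / R ^ 4 + 1 / (ν * t) ^ 2)
    gcongr
  · intro n t₀ ht₀
    exact (h2 n t₀ ht₀).trans (mul_le_mul_left (ENNReal.ofReal_le_ofReal (b4 n ν hν)) _)
  · intro t₁ ht₁
    obtain ⟨X, hX0, hX1, hX2, hX3, hX4⟩ := h3 t₁ ht₁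
    refine ⟨X, fun a => ⟨hX0 a, hX1 a, hX2 a⟩, ?_, ?_⟩
    · refine le_trans ?_ (hX3.trans (mul_le_mul_left (ENNReal.ofReal_le_ofReal
        (div_le_div_of_nonneg_right hC1 hν.le)) _))
      refine lintegral_mono fun a => iSup₂_mono fun t ht => ?_
      rw [e2]
      refine tsub_le_tsub (Pool.Agent.Y7.invSc_mono hKC hν _ _) (ENNReal.ofReal_le_ofReal ?_)
      have ht1 : t₁ < t := ht.1.1
      have : 0 < ν * (t - t₁) := mul_pos hν (by linarith)
      gcongr
    · intro n t₀ ht₀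
      exact (hX4 n t₀ ht₀).trans (mul_le_mul_left (ENNReal.ofReal_le_ofReal (b2 n ν hν)) _)

end Pool.Agent.Results.MP_fd8964_an.InteriorEndpoint
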