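import Pool.Agent.Y303.LV.Pub
import Pool.Agent.W52.TQ.Univ
import Pool.Agent.W52.TQ.Loc
import Pool.Agent.W503.TQ.Uni

/-!
# Arbitrarily large initial velocities with global strong solutions, in every bounded domain

In every bounded open set `Ω`, for every ball `B ⊆ Ω`, every viscosity `ν` and every `M` there is a
smooth divergence free initial velocity `φ` with compact support in `B` and without force, whose
scale invariant norm `sup √s ‖e^{sΔ} φ‖_∞` (the norm of `B^{-1}_{∞,∞}`, the weakest norm in which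
smallness is known to be relevant) is at least `M ν`, with a strong solution on `[0,∞)`.

The initial velocity is a thin vortex with a Gaussian profile with the core radius `a`, cut off at
the fixed scale of the ball `B`. The approximate solution
`V(t,x) = K a² θ(t) h(|y|²) s⁻² exp(-(y₁² + y₂²)/s) (y₂, -y₁, 0)`, `s = a² + 4νt`, `y = x - b`,
has the residual `O(a² s^{-3/2})` in `L²` up to a gradient, so that the distance of `V` from the
strong solution is `O(a)`, and this is small enough to control `∂ₜu` for all times.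
-/

set_option autoImplicit false

open MeasureTheory Set
open scoped InnerProductSpace ENNReal ContDiff

namespace Pool.Agent.Results.MP_fd8964_an.LargeVortices

open H772R2.NS.Pub Pool.Agent.W795.TQ
open Pool.Agent.Y303.LV (heat)

/-- Let `Ω` be a bounded open set, `B(b, ρ) ⊆ Ω`, `ν > 0`, and let `M` be any number. There is a
smooth divergence free `φ` with compact support in `B(b, ρ)` such that
* `√s |e^{sΔ} φ (x)| ≥ M ν` for some `s > 0` and `x`;
* there is `u` with `u(0) = φ` which for every `T > 0` is a strong solution on `[0,T]` of the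
  Navier-Stokes equations in `Ω` without force, and every Leray-Hopf solution on `[0,T]` with the
  same initial velocity is equal to `u`. -/
theorem result :
    ∀ (Ω : Set R3), IsOpen Ω → Bornology.IsBounded Ω →
    ∀ (b : R3) (ρ : ℝ), 0 < ρ → Metric.ball b ρ ⊆ Ω → ∀ ν M : ℝ, 0 < ν →
    ∃ φ : R3 → R3, IsTest (Metric.ball b ρ) φ ∧
      (∃ (s : ℝ) (x : R3), 0 < s ∧ M * ν ≤ √s * ‖heat s φ x‖) ∧
      ∃ (u u' : ℝ → L2 Ω R3) (G G' : ℝ → L2 Ω Mat), IsClass (u 0) φ ∧
        ∀ T : ℝ, 0 < T → IsStrong Ω ν T (fun _ => 0) u u' G G' ∧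
          ∀ (w : ℝ → L2 Ω R3) (D : ℝ → L2 Ω Mat), IsLerayHopf Ω ν T (fun _ => 0) w D →
            w 0 = u 0 → ∀ t ∈ Icc 0 T, w t = u t := by
  intro Ω hΩ hb b ρ hρ hB ν M hν
  obtain ⟨φ, h1, h2, u, u', G, G', h3, h4⟩ := Pool.Agent.Y303.LV.lv_pub
    Pool.Agent.W52.TQ.proof_loc Pool.Agent.W503.TQ.proof_uni Pool.Agent.W52.TQ.proof_univ
    hΩ hb hρ hB hν M
  refine ⟨φ, (isTest_iff φ).mpr h1, h2, u, u', G, G', h3, fun T hT => ⟨(h4 T hT).1, ?_⟩⟩
  intro w D L hw
  exact (h4 T hT).2 w D L.meas (by
    filter_upwards [L.grad] with t ht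
    exact mem_pub.mpr ht) L.gradL2
    (fun φ hφ t ht => L.eqn φ ((isTest_iff φ).mpr hφ) t ht) L.energy hw

end Pool.Agent.Results.MP_fd8964_an.LargeVortices
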