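import Pool.Agent.Y7.LN.Res3
import Pool.Agent.Y7.LN.All3

/-!
MP_fd8964_an: loss of regularity, and after it of uniqueness, for the Navier-Stokes equations with
Dirichlet conditions in an arbitrary bounded open set of `ℝ³` and an additional skew-adjoint linear
term.

For every viscosity `ν > 0` and every nonempty bounded open set `Ω` of `ℝ³` there are a complete
orthonormal system `e` of the space `H` of the problem, which consists of smooth divergence-free
fields with compact support in `Ω`, and a skew-adjoint linear operator `K = ∑ s i ⟨·, e (σ i)⟩ e i`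
such that for

  `∂ₜ u + (u · ∇) u + ∇p = ν Δ u + K u`,  `div u = 0`  in `Ω`,  `u = 0` on `∂Ω`,  `u(0) = e i₀`

there is a classical solution `u` on `[0, T)` whose velocity is unbounded. It is the only classical
solution, and the only Leray-Hopf solution up to the time `T`, and no Leray-Hopf solution on an
interval `[0, T']` with `T' ≥ T` has a time derivative in `L^∞(0, T'; H)`, the regularity class of
the problem. After the time `T` there is a continuum of Leray-Hopf solutions `U δ`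
(`0 ≤ δ ≤ 7/10`), which are smooth on `(T, Θ]`, satisfy `|U δ (t, x)| ≤ M |t - T| ^ (-3/5 - ε)` for
every `ε > 0` and have the energy defect `δ`.
-/

set_option autoImplicit false

open Set MeasureTheory

namespace Pool.Agent.Results.MP_fd8964_an.WeakNonUniqueness

open Pool.Agent.Y303.SKR Pool.Agent.Y303.EJR Pool.Agent.Y7.LNR

theorem result (ν : ℝ) (Ω : Set (EuclideanSpace ℝ (Fin 3)))
    (hν : 0 < ν) (hΩ : IsOpen Ω) (hb : Bornology.IsBounded Ω) (hne : Ω.Nonempty) :
    ∃ (ι : Type) (e : ι → EuclideanSpace ℝ (Fin 3) → EuclideanSpace ℝ (Fin 3)) (σ : ι → ι)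
      (s : ι → ℝ) (i₀ : ι) (T Θ : ℝ)
      (u : ℝ → EuclideanSpace ℝ (Fin 3) → EuclideanSpace ℝ (Fin 3))
      (U : ℝ → ℝ → EuclideanSpace ℝ (Fin 3) → EuclideanSpace ℝ (Fin 3)),
      -- a classical solution on `[0, T)`, smooth in `ℝ³`
      SkewD Ω e σ s ∧ 0 < T ∧ T < Θ ∧ SolD Ω ν e σ s T u ∧ SmD T u ∧ u 0 = e i₀ ∧
      -- energy equality
      (∀ t ∈ Ico 0 T, ipr (u t) (u t) + 2 * ν * (∫ τ in (0 : ℝ)..t, gg (gr (u τ))) =
        ipr (u 0) (u 0)) ∧
      -- it is the only classical solution, and `T` is the maximal time of existence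
      (∀ (T' : ℝ) (v : ℝ → EuclideanSpace ℝ (Fin 3) → EuclideanSpace ℝ (Fin 3)), 0 < T' →
        SolD Ω ν e σ s T' v → v 0 = e i₀ → T' ≤ T ∧ ∀ t ∈ Ico 0 T', v t = u t) ∧
      -- blow-up of the velocity
      (∀ M : ℝ, ∃ t ∈ Ico 0 T, ∃ x, M < ‖u t x‖) ∧
      -- uniqueness of the Leray-Hopf solution up to the time `T`; no Leray-Hopf solution which
      -- exists up to the time `T` has a time derivative in `L^∞(0, T'; H)`
      (∀ (T' : ℝ) (v : ℝ → EuclideanSpace ℝ (Fin 3) → EuclideanSpace ℝ (Fin 3))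
        (G : ℝ → EuclideanSpace ℝ (Fin 3) → Fin 3 → EuclideanSpace ℝ (Fin 3)), 0 < T' →
        LH Ω ν e σ s T' v G → v 0 =ᵐ[volume] u 0 →
        (∀ t ∈ Icc 0 T', t ≤ T → v t =ᵐ[volume] u t) ∧ (T ≤ T' → ¬ ∃ g, DtBdd Ω T' v g)) ∧
      -- non-uniqueness after the time `T`: Leray-Hopf solutions with the energy defects `δ`, which
      -- are smooth after the time `T`, and the rate of the singularity
      ∀ δ ∈ Icc (0 : ℝ) (7 / 10), (∀ t ≤ T, U δ t = u t) ∧
        LH Ω ν e σ s Θ (U δ) (fun t => gr (U δ t)) ∧ SolA Ω ν e σ s T Θ (U δ) ∧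
        (∀ t ∈ Ioc T Θ, ipr (U δ t) (U δ t) +
          2 * ν * (∫ τ in (0 : ℝ)..t, gg (gr (U δ τ))) = (1 - δ) * ipr (u 0) (u 0)) ∧
        ∀ ε > (0 : ℝ), ∃ M, ∀ t ∈ Icc 0 Θ, t ≠ T → ∀ x,
          ‖U δ t x‖ ≤ M * |t - T| ^ (-(3 / 5 + ε)) :=
  t_RES3_of Pool.Agent.Y7.LN.t_FINL3 Pool.Agent.Y303.SK.t_UNIQ ν Ω hν hΩ hb hne

end Pool.Agent.Results.MP_fd8964_an.WeakNonUniqueness
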